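import Pool.Agent.X139.KT.Stm

set_option autoImplicit false
open MeasureTheory ProbabilityTheory
open scoped BigOperators

namespace Pool.Agent.X84.KT

open Pool.Agent.X139.KT

lemma chi_sq {n : ℕ} (x : Fin n → Bool) (S : Finset (Fin n)) : chi x S ^ 2 = 1 := by
  unfold chi
  rw [← Finset.prod_pow]
  apply Finset.prod_eq_one
  intro i _
  cases x i <;> simp [sg]

lemma chi_symm {n : ℕ} (x : Fin n → Bool) (I J : Finset (Fin n)) :
    chi x (symmDiff I J) = chi x I * chi x J := by
  have h : ∀ S : Finset (Fin n), chi x S = ∏ i, (if i ∈ S then sg (x i) else 1) := by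
    intro S
    unfold chi
    rw [Finset.prod_ite_mem, Finset.univ_inter]
  rw [h, h, h, ← Finset.prod_mul_distrib]
  apply Finset.prod_congr rfl
  intro i _
  have hs : sg (x i) * sg (x i) = 1 := by cases x i <;> simp [sg]
  by_cases h1 : i ∈ I <;> by_cases h2 : i ∈ J <;> simp [Finset.mem_symmDiff, h1, h2, hs]

lemma qf_gauge {n l : ℕ} (x : Fin n → Bool) (Z : Finset (Fin n) → ℝ) (v : V n l → ℝ) :
    qf (fun S => chi x S * Z S) v = qf Z (fun I => chi x I.1 * v I) := by
  unfold qf
  apply Finset.sum_congr rfl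
  intro I _
  apply Finset.sum_congr rfl
  intro J _
  split_ifs
  · beta_reduce
    rw [chi_symm]
    ring
  · rfl

lemma norm_gauge {n l : ℕ} (x : Fin n → Bool) (v : V n l → ℝ) :
    ∑ I : V n l, (chi x I.1 * v I) ^ 2 = ∑ I, v I ^ 2 := by
  apply Finset.sum_congr rfl
  intro I _
  rw [mul_pow, chi_sq, one_mul]

theorem t_GAUGE : S_GAUGE := by
  intro n l x Z
  unfold T
  congr 1
  ext t
  constructor
  · rintro ⟨v, hv, rfl⟩
    exact ⟨fun I => chi x I.1 * v I, by rw [norm_gauge]; exact hv, qf_gauge x Z v⟩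
  · rintro ⟨v, hv, rfl⟩
    refine ⟨fun I => chi x I.1 * v I, by rw [norm_gauge]; exact hv, ?_⟩
    rw [qf_gauge]
    congr 1
    funext I
    rw [← mul_assoc, ← sq, chi_sq, one_mul]

end Pool.Agent.X84.KT
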