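import Pool.Agent.X139.KT.Stm

set_option autoImplicit false
open MeasureTheory ProbabilityTheory
open scoped BigOperators

namespace Pool.Agent.X84.KT

open Pool.Agent.X139.KT

lemma sg_sq (b : Bool) : sg b ^ 2 = 1 := by
  cases b <;> simp [sg]

lemma chi_mul {n : ℕ} (x y : Fin n → Bool) (S : Finset (Fin n)) :
    chi x S * chi y S = ∏ i ∈ S, (sg (x i) * sg (y i)) := by
  unfold chi
  rw [Finset.prod_mul_distrib]

lemma integ {μ : ℝ} (h0 : 0 < μ) (h1 : μ < 1) :
    Integrable (fun g : ℝ => Real.exp (μ ^ 2 * g ^ 2 / 2)) (gaussianReal 0 1) := by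
  rw [gaussianReal_of_var_ne_zero 0 one_ne_zero]
  rw [integrable_withDensity_iff (measurable_gaussianPDF 0 1)
    (Filter.Eventually.of_forall fun x => gaussianPDF_lt_top)]
  have hpos : 0 < (1 - μ ^ 2) / 2 := by nlinarith
  have hI := (integrable_exp_neg_mul_sq hpos).const_mul ((√(2 * Real.pi * 1))⁻¹)
  refine hI.congr (Filter.Eventually.of_forall fun g => ?_)
  simp only [toReal_gaussianPDF, gaussianPDFReal, NNReal.coe_one]
  rw [mul_left_comm, ← Real.exp_add]
  congr 2
  ring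

lemma hs (a : ℝ) : Real.exp (a ^ 2 / 2) = ∫ g, Real.exp (a * g) ∂(gaussianReal 0 1) := by
  have h := congrFun (mgf_fun_id_gaussianReal (μ := 0) (v := 1)) a
  simp only [mgf, NNReal.coe_one] at h
  rw [h]
  congr 1
  ring

lemma sum_exp {n : ℕ} (y : Fin n → Bool) (t : ℝ) :
    ∑ x : Fin n → Bool, Real.exp (t * ∑ i, sg (x i) * sg (y i)) ≤
      2 ^ n * Real.exp (n * t ^ 2 / 2) := by
  have h1 : ∀ x : Fin n → Bool, Real.exp (t * ∑ i, sg (x i) * sg (y i)) =
      ∏ i, Real.exp (t * (sg (x i) * sg (y i))) := by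
    intro x
    rw [Finset.mul_sum, Real.exp_sum]
  simp_rw [h1]
  have h2 : ∑ x : Fin n → Bool, ∏ i, Real.exp (t * (sg (x i) * sg (y i))) =
      ∏ i : Fin n, ∑ b : Bool, Real.exp (t * (sg b * sg (y i))) := by
    rw [Finset.prod_univ_sum, Fintype.piFinset_univ]
  rw [h2]
  have h3 : ∀ i : Fin n, ∑ b : Bool, Real.exp (t * (sg b * sg (y i))) = 2 * Real.cosh t := by
    intro i
    rw [Real.cosh_eq]
    cases y i <;> simp [sg] <;> ring
  simp_rw [h3]
  rw [Finset.prod_const, Finset.card_univ, Fintype.card_fin, mul_pow]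
  have h4 : Real.cosh t ^ n ≤ Real.exp (t ^ 2 / 2) ^ n :=
    pow_le_pow_left₀ (Real.cosh_pos t).le (Real.cosh_le_exp_half_sq t) n
  have h5 : Real.exp (t ^ 2 / 2) ^ n = Real.exp (n * t ^ 2 / 2) := by
    rw [← Real.exp_nat_mul]
    congr 1
    ring
  rw [h5] at h4
  exact mul_le_mul_of_nonneg_left h4 (by positivity)

theorem t_SM (hP : S_PAIR) : S_SM := by
  intro μ h0 h1
  refine ⟨(∫ g, Real.exp (μ ^ 2 * g ^ 2 / 2) ∂(gaussianReal 0 1)) + 1, ?_, ?_⟩
  · have : 0 ≤ ∫ g, Real.exp (μ ^ 2 * g ^ 2 / 2) ∂(gaussianReal 0 1) :=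
      integral_nonneg fun g => (Real.exp_pos _).le
    linarith
  intro n hn y
  have hn' : (0 : ℝ) < n := by exact_mod_cast hn
  have hsq : (Real.sqrt n) ^ 2 = n := Real.sq_sqrt hn'.le
  have hs0 : 0 < Real.sqrt n := Real.sqrt_pos.2 hn'
  set Z : (Fin n → Bool) → ℝ := fun x => ∑ i, sg (x i) * sg (y i) with hZ
  have key : ∀ x : Fin n → Bool, Real.exp (μ ^ 2 / n *
      ∑ S ∈ (Finset.univ : Finset (Finset (Fin n))).filter (fun S => S.card = 2),
        chi x S * chi y S) ≤ ∫ g, Real.exp ((μ * g / Real.sqrt n) * Z x) ∂(gaussianReal 0 1) := by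
    intro x
    have hp := hP n (fun i => sg (x i) * sg (y i))
    have e1 : ∑ i : Fin n, (sg (x i) * sg (y i)) ^ 2 = n := by
      simp [mul_pow, sg_sq]
    rw [e1] at hp
    have e2 : ∑ S ∈ (Finset.univ : Finset (Finset (Fin n))).filter (fun S => S.card = 2),
        chi x S * chi y S = (Z x ^ 2 - n) / 2 := by
      simp_rw [chi_mul]
      simp only [hZ]
      linarith
    rw [e2]
    have e3 : ∫ g, Real.exp ((μ * g / Real.sqrt n) * Z x) ∂(gaussianReal 0 1) =
        Real.exp ((μ * Z x / Real.sqrt n) ^ 2 / 2) := by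
      rw [hs]
      congr 1
      funext g
      congr 1
      ring
    rw [e3]
    apply Real.exp_le_exp.2
    rw [div_pow, hsq]
    have : μ ^ 2 / n * ((Z x ^ 2 - n) / 2) = (μ * Z x) ^ 2 / n / 2 - μ ^ 2 / 2 := by
      field_simp
    rw [this]
    nlinarith [sq_nonneg μ]
  have hint : ∀ x : Fin n → Bool, Integrable (fun g : ℝ => Real.exp ((μ * g / Real.sqrt n) * Z x))
      (gaussianReal 0 1) := by
    intro x
    have := integrable_exp_mul_gaussianReal (μ := 0) (v := 1) (μ * Z x / Real.sqrt n)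
    refine this.congr (Filter.Eventually.of_forall fun g => ?_)
    show Real.exp _ = Real.exp _
    congr 1
    ring
  have hC := integ h0 h1
  calc ∑ x : Fin n → Bool, Real.exp (μ ^ 2 / n *
      ∑ S ∈ (Finset.univ : Finset (Finset (Fin n))).filter (fun S => S.card = 2),
        chi x S * chi y S)
      ≤ ∑ x : Fin n → Bool, ∫ g, Real.exp ((μ * g / Real.sqrt n) * Z x) ∂(gaussianReal 0 1) :=
        Finset.sum_le_sum fun x _ => key x
    _ = ∫ g, ∑ x : Fin n → Bool, Real.exp ((μ * g / Real.sqrt n) * Z x) ∂(gaussianReal 0 1) := by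
        rw [integral_finsetSum _ fun x _ => hint x]
    _ ≤ ∫ g, 2 ^ n * Real.exp (μ ^ 2 * g ^ 2 / 2) ∂(gaussianReal 0 1) := by
        apply integral_mono (integrable_finsetSum _ fun x _ => hint x) (hC.const_mul _)
        intro g
        have := sum_exp y (μ * g / Real.sqrt n)
        have e : (n : ℝ) * (μ * g / Real.sqrt n) ^ 2 / 2 = μ ^ 2 * g ^ 2 / 2 := by
          rw [div_pow, hsq]
          field_simp
        rw [e] at this
        exact this
    _ = (∫ g, Real.exp (μ ^ 2 * g ^ 2 / 2) ∂(gaussianReal 0 1)) * 2 ^ n := by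
        rw [integral_const_mul]
        ring
    _ ≤ ((∫ g, Real.exp (μ ^ 2 * g ^ 2 / 2) ∂(gaussianReal 0 1)) + 1) * 2 ^ n := by
        have : (0 : ℝ) < 2 ^ n := by positivity
        nlinarith

end Pool.Agent.X84.KT
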